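import Pool.Agent.U7.Iso.Prob

/-!
# Existence of an isolated point is `∃∀ℝ`-complete

Sketch of the hardness proof.

*The game.*  Write a sentence `∃ x ∀ y, ψ` as `∃ x ∀ v, b₀(x, v) > 0`, where
`b₀(x, v) = ∑ (x_l - v_l)² + G(v)` (the sum is over the first block, so `v` contains a copy of `x`)
and `G` is a sum of squares of polynomials of degree at most two.  By a Łojasiewicz inequality with
explicit exponent `K = 2^κ`, for a good `x` the function `(1 + |v|²)^K b₀(x, v)` is bounded below by
a positive constant.  Hence `f(x, v) = M(v) (1 + |v|²)^K (b₀(x, v) + ε)`, where `M` is a generic
positive cubic form in `(1, H(v), v)`, `H` the quadratic part, and `n(x)` a generic positive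
normalisation, has the property that `μ = max_x min_v f(x, v) / n(x)` is above a threshold `γ` for
a true sentence and below `γ` for a false one, if the coefficients, `γ` and `ε` are doubly
exponentially small numbers which decrease fast enough.  (No value of the game can be equal to `γ`
for any such parameters; this is proved by counting, with Siegel's lemma: each coordinate of a
critical point satisfies an integral relation with the parameters, of bounded degree and height,
and such a relation cannot vanish at well separated parameters.)

*Isolation.*  The maximiser `x` has at most `N + 1` active minimisers `v_i`, and there are
multipliers `τ_i` with `∑ τ_i b(x, v_i) = n(x)` and the corresponding stationarity (a convex hull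
argument).  After a reduction of the support the points `(1, H(v_i), v_i)` are linearly independent,
so the derivative of the critical equations with respect to the generic coefficients is
surjective, and this, with the counting argument, implies that the critical point
`(x, μ, v_i, τ_i)` is an isolated solution of the system of the critical equations.  So the set `C`
of the solutions of the system has an isolated point without a bad `v` (one with
`f(x, v) ≤ γ n(x)`) for a true sentence, and each point of `C` has a bad `v` for a false one.

*The cone.*  `∃` isolated `p ∈ C` with no `v` such that `(p, v) ∈ B` is turned into the existence of
an isolated point: `S = {(p, 0, 0)} ∪ {(p, t, t w) : t > 0, w a witness of (p, v) ∈ B}`; a point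
with `t > 0` is never isolated since it may be scaled, and `(p, 0, 0)` is a limit of points with
`t > 0` as soon as there is a witness.
-/

namespace Pool.Agent.Results.MP_47d501_lc.IsolatedPointComplete

open Pool.Agent.NPC Pool.Agent.NPC.ER Pool.Agent.NPC.U7Iso

/-- ISOLATED-POINT-EXISTENCE is `∃∀ℝ`-complete under polynomial-time many-one reductions. -/
theorem result : EARComplete (lang IsoPoint) := iso_complete

end Pool.Agent.Results.MP_47d501_lc.IsolatedPointComplete
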